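import Pool.Agent.V11273.PV.G12

/-!
# In bounded degree and height, the relations at almost all algebraic points come from the ideal of the period torsor

A family (`Family X ι`) is an algebraic connection `c ∂_i Y = Y B_i` over the affine space with coordinates `x_i`, `i ∈ X`,
with an invertible matrix `Y` of analytic solutions on a nonempty connected open set `U`: for example `Y` is a branch of the
period matrix `P` of the fibres of any family of varieties over an open part `S` of the affine space. `galois` is the group
of the constant matrices `g` such that all polynomial relations over `ℂ[x]` between the entries of `Y` are relations between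
the entries of `g Y` (the differential Galois group; for Gauss-Manin connections it is the Zariski closure of the monodromy
group). We assume that it is connected, which for a family of varieties holds after a finite covering of `S`.

The variety `B_P` is the Zariski closure over the algebraic numbers of the graph of `P`: its ideal consists of the
polynomials `R` in the matrix entries, with coefficients in `ℚ̄[x]`, with `R (x, Y x) = 0` for all `x ∈ U`. The relations at
a point `s` of `S` which hold on the fibre `B_{P,s}` are thus the specializations `R (s, ·)` of these `R`, at least (and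
this is stronger than vanishing on the points of `B_{P,s}`). We show that all relations over `K` of degree at most `ω T`
and of height at most `T ^ ω T` which hold at `P(s)` are such specializations, for all fields `K` of degree at most `ω T` at
once and for all points `s` of height at most `T` with coordinates in `K`, outside of a sparse set. Here `ω T → ∞`.
-/

set_option autoImplicit false

open Filter NumberField

namespace Pool.Agent.Results.MP_290158_ag.ConnectedFamilies

/-- an algebraic connection on the affine space `ℂ ^ X` with a fundamental matrix `Y` of analytic solutions on `U` -/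
structure Family (X ι : Type) [Fintype X] [DecidableEq X] [Fintype ι] [DecidableEq ι] where
  /-- a nonempty connected open set -/
  U : Set (X → ℂ)
  isOpen : IsOpen U
  connected : IsPreconnected U
  nonempty : U.Nonempty
  /-- the matrix of the solutions (periods) -/
  Y : (X → ℂ) → Matrix ι ι ℂ
  analytic : ∀ a b, AnalyticOnNhd ℂ (fun x => Y x a b) U
  det_ne : ∀ x ∈ U, (Y x).det ≠ 0
  /-- the common denominator of the connection -/
  c : MvPolynomial X ℂ
  c_ne : c ≠ 0
  /-- the numerators -/
  B : X → Matrix ι ι (MvPolynomial X ℂ)
  /-- `c ∂_i Y = Y B_i` -/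
  eqn : ∀ x ∈ U, ∀ i a b, MvPolynomial.eval x c * fderiv ℂ (fun x => Y x a b) x (Pi.single i 1) =
    ∑ e, Y x a e * MvPolynomial.eval x (B i e b)

section
variable {X ι : Type} [Fintype X] [DecidableEq X] [Fintype ι] [DecidableEq ι]

/-- all polynomial relations between the entries of `Y` over `ℂ[x]` are relations between the entries of `g Y` -/
def Preserves (F : Family X ι) (g : Matrix ι ι ℂ) : Prop :=
  ∀ p : MvPolynomial (ι × ι) (MvPolynomial X ℂ),
    (∀ x ∈ F.U, MvPolynomial.eval₂ (MvPolynomial.eval x) (fun v => F.Y x v.1 v.2) p = 0) →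
    ∀ x ∈ F.U, MvPolynomial.eval₂ (MvPolynomial.eval x) (fun v => (g * F.Y x) v.1 v.2) p = 0

/-- the Galois group -/
def Family.galois (F : Family X ι) : Subgroup (GL ι ℂ) where
  carrier := {g | Preserves F (g : Matrix ι ι ℂ)}
  mul_mem' := fun ha hb => (Pool.Agent.V11273.PV.Gal F.U F.Y).mul_mem' ha hb
  one_mem' := (Pool.Agent.V11273.PV.Gal F.U F.Y).one_mem'
  inv_mem' := fun ha => (Pool.Agent.V11273.PV.Gal F.U F.Y).inv_mem' ha

/-- subgroups of finite index which are defined by polynomial equations are the whole group -/
def Connected (G : Subgroup (GL ι ℂ)) : Prop :=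
  ∀ H : Subgroup G, H.FiniteIndex → (∃ E : Set (MvPolynomial (ι × ι) ℂ), ∀ h : G, h ∈ H ↔
    ∀ e ∈ E, MvPolynomial.eval (fun v => ((h : GL ι ℂ) : Matrix ι ι ℂ) v.1 v.2) e = 0) → H = ⊤

end

/-- the field of algebraic numbers -/
abbrev Qbar : Type := algebraicClosure ℚ ℂ

/-- the value at `x` of a polynomial in the coordinates over the algebraic numbers -/
noncomputable def atP {X : Type} (x : X → ℂ) : MvPolynomial X Qbar →+* ℂ :=
  (MvPolynomial.aeval x : MvPolynomial X Qbar →ₐ[Qbar] ℂ).toRingHom

section
variable {X ι : Type} [Fintype X] [DecidableEq X] [Fintype ι] [DecidableEq ι]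

/-- The ideal of `B_P`: the polynomials in the coordinates and the matrix entries, over the algebraic numbers, which vanish
on the graph of the period matrix. -/
def InIdeal (F : Family X ι) (R : MvPolynomial (ι × ι) (MvPolynomial X Qbar)) : Prop :=
  ∀ x ∈ F.U, MvPolynomial.eval₂ (atP x) (fun v => F.Y x v.1 v.2) R = 0

/-- `P` is the specialization at `x₀` of an element of the ideal of `B_P`, of partial degrees at most `k`: a relation which
holds on the fibre `B_{P,x₀}` -/
def HoldsOnFibre (F : Family X ι) (k : ℕ) (x₀ : X → ℂ) (P : MvPolynomial (ι × ι) ℂ) : Prop :=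
  ∃ R : MvPolynomial (ι × ι) (MvPolynomial X Qbar), (∀ v, R.degreeOf v ≤ k) ∧ InIdeal F R ∧ R.map (atP x₀) = P

/-- quotients of two integers of `K`, all conjugates of which are at most `T` -/
def HeightLe (K : Type) [Field K] [NumberField K] (T : ℝ) (x : K) : Prop :=
  ∃ a b : 𝓞 K, b ≠ 0 ∧ house (a : K) ≤ T ∧ house (b : K) ≤ T ∧ x = a / b

/-- `S` is covered by at most `m` hypersurfaces of degree at most `D` -/
def CoveredBy {X : Type} (D m : ℕ) (S : Set (X → ℂ)) : Prop :=
  ∃ Φ : Finset (MvPolynomial X ℂ), Φ.card ≤ m ∧ (∀ P ∈ Φ, P ≠ 0 ∧ P.totalDegree ≤ D) ∧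
    ∀ x ∈ S, ∃ P ∈ Φ, MvPolynomial.eval x P = 0

/-- the points of norm at most `k` at distance at least `1 / k` from the complement of `U` -/
def Inner {X : Type} [Fintype X] (U : Set (X → ℂ)) (k : ℕ) : Set (X → ℂ) :=
  {z | ‖z‖ ≤ k ∧ Metric.ball z (k : ℝ)⁻¹ ⊆ U}

/-- The exceptional points `s` over `K`: they are of height at most `T`, in the compact set `Inner U k`, and there is a
polynomial relation `P` between the entries of `Y(s)` over the integers of `K`, of partial degrees at most `k`, all
conjugates of its coefficients being at most `T ^ k`, which does not hold on the fibre `B_{P,s}`. -/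
def Exceptional (F : Family X ι) (K : Type) [Field K] [NumberField K] (io : K →+* ℂ) (k : ℕ) (T : ℝ) : Set (X → K) :=
  {s | (∀ j, HeightLe K T (s j)) ∧ (fun j => io (s j)) ∈ Inner F.U k ∧ ∃ P : MvPolynomial (ι × ι) (𝓞 K),
    (∀ v, P.degreeOf v ≤ k) ∧ (∀ m (φ : K →+* ℂ), ‖φ ((P.coeff m : 𝓞 K) : K)‖ ≤ T ^ (k : ℝ)) ∧
    MvPolynomial.eval₂ (io.comp (algebraMap (𝓞 K) K)) (fun v => F.Y (fun j => io (s j)) v.1 v.2) P = 0 ∧
    ¬ HoldsOnFibre F k (fun j => io (s j)) (P.map (io.comp (algebraMap (𝓞 K) K)))}

/-- Let `F` be a family with connected Galois group over an open part of an affine space of dimension `d ≥ 1`. There is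
`ω → ∞` such that for all large `T` and all number fields `K` of degree at most `ω T`, embedded in `ℂ`, the exceptional set
`Exceptional F K io (ω T) T` lies on at most `T ^ (1 / ω T)` hypersurfaces of degree at most `T ^ (1 / ω T)`, and has at
most `T ^ (1 / ω T) * N ^ (d - 1)` elements, where `N` is the number of the elements of `K` of height at most `T`. At all
other points `s` with coordinates in `K` of height at most `T` (in `Inner U (ω T)`) every relation over `K` of partial
degrees at most `ω T` and of height at most `T ^ ω T` between the entries of `P(s)` holds on the fibre `B_{P,s}`, and is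
even the specialization at `s` of an element of the ideal of `B_P` of the same partial degrees. -/
theorem result [Nonempty X] (F : Family X ι) (hF : Connected F.galois) :
    ∃ (ω : ℝ → ℕ) (T₀ : ℝ), Tendsto ω atTop atTop ∧ Monotone ω ∧ ∀ T, T₀ ≤ T → 0 < ω T ∧
      ∀ (K : Type) [Field K] [NumberField K], Module.finrank ℚ K ≤ ω T → ∀ (io : K →+* ℂ),
        CoveredBy ⌊T ^ ((ω T : ℝ)⁻¹)⌋₊ ⌊T ^ ((ω T : ℝ)⁻¹)⌋₊
          ((fun (s : X → K) i => io (s i)) '' Exceptional F K io (ω T) T) ∧
        (Exceptional F K io (ω T) T).Finite ∧
        ((Exceptional F K io (ω T) T).ncard : ℝ) ≤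
          T ^ ((ω T : ℝ)⁻¹) * ({x : K | HeightLe K T x}.ncard : ℝ) ^ (Fintype.card X - 1) :=
  Pool.Agent.V11273.PV.main_Q1 (U := F.U) (Y := F.Y) F.connected F.isOpen F.nonempty F.analytic F.det_ne F.c_ne F.eqn hF

end

end Pool.Agent.Results.MP_290158_ag.ConnectedFamilies
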