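import Pool.Agent.V11219.PerDeg

/-!
# Degree-bounded period relations in families of abelian varieties with local monodromy conditions

Let `h_i`, `1 ≤ i ≤ k`, be families of G-functions over `ℚ` (with the conditions of Siegel and
Galochkin, regular singular with rational exponents at `0`) and let `P_i(x)` be square matrices whose
entries are polynomials with complex coefficients in `log x` and in the functions `h_{i,l}(x)`: the
period matrices of `⨁_j H^1(A_{ij,x})` for families of abelian varieties `A_{ij}`, `1 ≤ j ≤ m_i`,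
over an open part of the line, near a rational point which may be a point of degeneration. The family
of the problem is the product of the families `∏_j A_{ij}` over the product `S` of `k` lines, with the
period matrix `P(s) = P_1(s_1) ⊕ … ⊕ P_k(s_k)`. Let `Gal(P_i)` be the group of the matrices `g` such that
`P_i` and `g P_i` satisfy the same polynomial relations over `ℂ(x)`: the Zariski closure of the
monodromy group, if `P_i` is a fundamental matrix of the Gauss-Manin system.

**Local monodromy.** `Gal(P_i)` is block diagonal, respects the polarisations of the pieces up to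
characters, acts strongly irreducibly on the pieces, and no two pieces are isomorphic up to scalars.
For every piece there is an element `g` of `Gal(P_i)`, with `(g - 1) ^ 2 = 0` (the local monodromy
around a point of semistable reduction), such that the rank of `g - 1` on the piece and the
multiplicities of the nonzero eigenvalues of the `(g - 1) (g' - 1)`, for other elements `g'` of this
type, are coprime, or contain the number two (or the conjugates of some `g` act irreducibly on the
piece and the defects of all elements together are coprime). Nothing is supposed about the action of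
`g` on the other pieces.

**Theorem.** Let the degree `d` of the relations and the degree `D` of the number fields be given. For
almost all tuples of integers `t` (all but `C N^(k-1) ∑_i (1 + N / (x_i + N)^c)` of the tuples in the box
`∏_i (x_i, x_i + N]`, where `c > 0` and `C` do not depend on the number field, so almost all tuples in all
boxes which are not too short) the degree-`d` statement is true at the point `s = (1 / t_1, …, 1 / t_k)`,
for every number field `K` of degree at most `D`:

let the polarisations `B_i` (Betti) and `Q_i` (de Rham, at the point `s`) have entries in `K`, and let the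
period matrices satisfy the Riemann relations `P_i Q_i P_i^t = (2πi)^(w_ij) B_i` on the pieces. Then every
polynomial of degree at most `d` over `K` (`= κ(s)`, as the `s_i` are rational), without any bound for
its height, which vanishes at `P(s)` vanishes at all points of the torsor `torsor` of all
`X_1 ⊕ … ⊕ X_k` with `X_i Q_i X_i^t = z^(w_ij) B_i` on the pieces, `z ≠ 0`. The torsor contains the fibre
`B_{P,s}`, as the Riemann relations hold identically on the family. So `Z_s` admits no relation of degree
at most `d` over `κ(s)`, in the sense of the problem.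

The known results of this kind are for the hyperelliptic families `y² = g(x) (x - t)`. The proof uses
the linear algebra of quadratic unipotent elements for the group `Gal(P_i)` (see
`MP_cbf1af_ag.LocalMonodromyRelations`, where relative relations are considered) and the theorem
`Pool.Agent.Y120.R.gx` of helper120: outside of the exceptional set all relations of degree at most `d`
are inherited by the orbits. Then one moves `2πi` to all transcendental numbers by automorphisms
of `ℂ` over `K`, and uses the curves `(s² z, s^w X)`.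
-/

set_option autoImplicit false

open PowerSeries Filter
open scoped Matrix

namespace Pool.Agent.Results.MP_290158_ag.LocalMonodromyRelations

open Pool.Agent.V11219.Per

theorem iter_eq {r : ℕ} (T : Polynomial ℤ) (A : Fin r → Fin r → Polynomial ℤ) (s : ℕ) :
    iter T A s = Pool.Agent.Y120.GH.itm T A s := by
  induction s with
  | zero => rfl
  | succ s ih =>
    funext i j
    rw [iter, Pool.Agent.Y120.GH.itm, ih]

theorem qu_eq {r : ℕ} {T : Polynomial ℤ} {A : Fin r → Fin r → Polynomial ℤ}
    (h : QuasiUnipotent T A) : Pool.Agent.Y120.GH.QU0 T A := by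
  obtain ⟨e, M, K, Φ, he, hdet, hc, heq⟩ := h
  have he0 : e ≠ 0 := by omega
  refine ⟨e, he0, M, K, Φ, hc, fun i j n => ?_, hdet⟩
  have h1 := heq i j n
  simp only [atPow] at h1
  rw [Pool.Agent.Y120.GH.expand_poly he0]
  simp only [Pool.Agent.Y120.GH.expand_poly he0]
  exact h1

theorem fam {r : ℕ} {T : Polynomial ℤ} {A : Fin r → Fin r → Polynomial ℤ}
    {h : Fin r → PowerSeries ℚ} (hG : GFamily T A h) (δ : ℕ) : Pool.Agent.Y120.R.Fam δ h :=
  ⟨hG.size, Pool.Agent.Y120.GH.family_main hG.T_ne hG.ode hG.size hG.den (by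
    obtain ⟨C, hC⟩ := hG.galochkin
    refine ⟨C, fun m => ?_⟩
    obtain ⟨d, h1, h2, h3⟩ := hC m
    refine ⟨d, h1, h2, fun s hs i' j' => ?_⟩
    rw [← iter_eq]
    exact h3 s hs i' j') (qu_eq hG.regular) δ⟩

section
variable {k : ℕ} {n m : Fin k → ℕ} {ρ : Fin k → ℕ}

/-- The indices of the block matrices. -/
abbrev Idx (n : Fin k → ℕ) : Type := Σ i, Fin (n i)

/-- the block matrix `X_1 ⊕ … ⊕ X_k` -/
noncomputable def total (X : ∀ i, Matrix (Fin (n i)) (Fin (n i)) ℂ) : Matrix (Idx n) (Idx n) ℂ :=
  Matrix.blockDiagonal' X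

/-- The matrices `X_i` respect the pieces and satisfy the Riemann relations
`X_i Q_i X_i^t = z^(w_ij) B_i` on the pieces. -/
def Riemann (β : ∀ i, Fin (n i) → Fin (m i)) (B Q : ∀ i, Matrix (Fin (n i)) (Fin (n i)) ℂ)
    (w : ∀ i, Fin (m i) → ℕ) (z : ℂ) (X : ∀ i, Matrix (Fin (n i)) (Fin (n i)) ℂ) : Prop :=
  ∀ i, BlockDiagonal (β i) (X i) ∧
    ∀ a b, (X i * Q i * (X i)ᵀ) a b = z ^ w i (β i a) * B i a b

/-- The torsor of all `X_1 ⊕ … ⊕ X_k` which satisfy the Riemann relations for some `z ≠ 0`. -/
def torsor (β : ∀ i, Fin (n i) → Fin (m i)) (B Q : ∀ i, Matrix (Fin (n i)) (Fin (n i)) ℂ)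
    (w : ∀ i, Fin (m i) → ℕ) : Set (Matrix (Idx n) (Idx n) ℂ) :=
  {y | ∃ z : ℂ, z ≠ 0 ∧ ∃ X, Riemann β B Q w z X ∧ y = total X}

/-- `F` is a polynomial of degree at most `d` with coefficients in `K` which vanishes at `y`. -/
def Vanishes {I : Type} (K : Subfield ℂ) (d : ℕ) (F : MvPolynomial (I × I) ℂ) (y : Matrix I I ℂ) :
    Prop :=
  (∀ s, F.coeff s ∈ K) ∧ F.totalDegree ≤ d ∧ MvPolynomial.eval (fun b => y b.1 b.2) F = 0

/-- The degree-`d` statement over `K` for one fibre: `Z i` is the period matrix of the fibre of the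
`i`-th family. -/
def DegreeStatement (K : Subfield ℂ) (d : ℕ) (h : ∀ i, Fin (ρ i) → PowerSeries ℚ)
    (P : ∀ i, Fin (n i) → Fin (n i) → MvPolynomial (Option (Fin (ρ i))) ℂ)
    (Z : ∀ i, Matrix (Fin (n i)) (Fin (n i)) ℂ) : Prop :=
  ∀ (m : Fin k → ℕ) (β : ∀ i, Fin (n i) → Fin (m i)) (B Q : ∀ i, Matrix (Fin (n i)) (Fin (n i)) ℂ)
    (w : ∀ i, Fin (m i) → ℕ), (∀ i, LocalMonodromy (β i) (B i) (Gal (h i) (P i))) →
    (∀ i a b, B i a b ∈ K ∧ Q i a b ∈ K) → Riemann β B Q w (2 * Real.pi * Complex.I) Z →
    ∀ F, Vanishes K d F (total Z) → ∀ y ∈ torsor β B Q w, Vanishes K d F y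

theorem statement_of {K : Subfield ℂ} (hKf : FiniteDimensional ℚ K) {d : ℕ}
    {h : ∀ i, Fin (ρ i) → PowerSeries ℚ}
    {P : ∀ i, Fin (n i) → Fin (n i) → MvPolynomial (Option (Fin (ρ i))) ℂ} {t : Fin k → ℕ}
    (hg : RelOK K d (((2 * Real.pi * Complex.I : ℂ)) • (1 : Matrix (Fin 0) (Fin 0) ℂ)) h P t) :
    DegreeStatement K d h P fun i => perMat (h i) (P i) (t i : ℝ) := by
  rintro m β B Q w hL hBQ hZ F hF _ ⟨z, hz, X, hX, rfl⟩
  exact ⟨hF.1, hF.2.1, degree_rel hKf hg hL hF.1 hF.2.1 hF.2.2 (fun i a b => (hBQ i a b).1)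
    (fun i a b => (hBQ i a b).2) hZ hz hX⟩

end

/-- **The theorem.** -/
theorem result (k D d e : ℕ) (ρ n : Fin k → ℕ) (T : Fin k → Polynomial ℤ)
    (A : ∀ i, Fin (ρ i) → Fin (ρ i) → Polynomial ℤ) (h : ∀ i, Fin (ρ i) → PowerSeries ℚ)
    (hG : ∀ i, GFamily (T i) (A i) (h i)) :
    ∃ c C : ℝ, 0 < c ∧ 0 ≤ C ∧
      ∀ P : ∀ i, Fin (n i) → Fin (n i) → MvPolynomial (Option (Fin (ρ i))) ℂ,
      (∀ i a b, (P i a b).totalDegree ≤ e) →
      ∀ K : Subfield ℂ, FiniteDimensional ℚ K → Module.finrank ℚ K ≤ D →
      ∀ (x : Fin k → ℕ) (N : ℕ), 1 ≤ N →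
      (({t : Fin k → ℕ | (∀ i, x i < t i ∧ t i ≤ x i + N) ∧
        ¬ DegreeStatement K d h P fun i => perMat (h i) (P i) (t i : ℝ)}.ncard : ℕ) : ℝ) ≤
        C * (N : ℝ) ^ (k - 1) * ∑ i, (1 + N / ((x i : ℝ) + N) ^ c) := by
  classical
  obtain ⟨c, C, hc, hC, hmain⟩ := rel_main k D d e 0 ρ n h fun i δ => fam (hG i) δ
  refine ⟨c, C, hc, hC, ?_⟩
  intro P hP K hKf hKD x N hN
  set E := {t : Fin k → ℕ | (∀ i, x i < t i ∧ t i ≤ x i + N) ∧
      ¬ DegreeStatement K d h P fun i => perMat (h i) (P i) (t i : ℝ)} with hE
  have hfin : E.Finite := by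
    refine (Set.finite_Iic (fun i : Fin k => x i + N)).subset ?_
    intro t ht i
    exact (ht.1 i).2
  rw [Set.ncard_eq_toFinset_card E hfin]
  refine hmain P hP K hKf hKD ((2 * Real.pi * Complex.I : ℂ) • 1) x N hN _ fun t ht => ?_
  have ht' : t ∈ E := hfin.mem_toFinset.1 ht
  exact ⟨ht'.1, fun hgood => ht'.2 (statement_of hKf hgood)⟩

end Pool.Agent.Results.MP_290158_ag.LocalMonodromyRelations
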