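import Pool.Agent.Helper264.NT.NearQ

/-!
# Near almost every point ALL relations of bounded degree and height come from the ideal of the period torsor

A family (`Family X ι`) is an algebraic connection `c ∂_i Y = Y B_i` over the affine space with coordinates `x_i`, `i ∈ X`,
with an invertible matrix `Y` of analytic solutions on a nonempty connected open set `U`: for example `Y` is a branch of the
period matrix `P` of the fibres of any family of varieties over an open part `S` of the affine space. `galois` is the group
of the constant matrices `g` such that all polynomial relations over `ℂ[x]` between the entries of `Y` are relations between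
the entries of `g Y`. We assume that it is connected, which for a family of varieties holds after a finite covering of `S`.

The variety `B_P` is the Zariski closure over the algebraic numbers of the graph of `P`: its ideal consists of the
polynomials `R` in the matrix entries, with coefficients in `ℚ̄[x]`, with `R (x, Y x) = 0` for all `x ∈ U`. The relations at
a point `s` of `S` which hold on the fibre `B_{P,s}` are thus the specializations `R (s, ·)` of these `R`, at least.

Let `d` be the dimension of `S`. There is a set `E` in `ℂ^d` of Hausdorff dimension at most `2 d - 2` such that near every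
point `z` of `U` outside of `E` there are no exceptional points: for all `w > 0` (arbitrarily small), all number fields `K`
and all `δ = k`, for large `T`, at ALL points `s` with coordinates in `K` of height at most `T` at distance at most `T ^ (-w)`
from `z` all relations over `K` of partial degrees at most `k` and of height at most `T ^ k` between the entries of `P(s)`
hold on the fibre `B_{P,s}`, and are even specializations of elements of the ideal of `B_P` of the same partial degrees. For
real points `z` the same holds outside of a set in `ℝ^d` of dimension at most `d - 1`.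
-/

set_option autoImplicit false

open Filter NumberField
open scoped ENNReal

namespace Pool.Agent.Results.MP_290158_ag.NearEveryPoint

/-- an algebraic connection on the affine space `ℂ ^ X` with a fundamental matrix `Y` of analytic solutions on `U` -/
structure Family (X ι : Type) [Fintype X] [DecidableEq X] [Fintype ι] [DecidableEq ι] where
  /-- a nonempty connected open set -/
  U : Set (X → ℂ)
  isOpen : IsOpen U
  connected : IsPreconnected U
  nonempty : U.Nonempty
  /-- the matrix of the solutions (periods) -/
  Y : (X → ℂ) → Matrix ι ι ℂ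
  analytic : ∀ a b, AnalyticOnNhd ℂ (fun x => Y x a b) U
  det_ne : ∀ x ∈ U, (Y x).det ≠ 0
  /-- the common denominator of the connection -/
  c : MvPolynomial X ℂ
  c_ne : c ≠ 0
  /-- the numerators -/
  B : X → Matrix ι ι (MvPolynomial X ℂ)
  /-- `c ∂_i Y = Y B_i` -/
  eqn : ∀ x ∈ U, ∀ i a b, MvPolynomial.eval x c * fderiv ℂ (fun x => Y x a b) x (Pi.single i 1) =
    ∑ e, Y x a e * MvPolynomial.eval x (B i e b)

section
variable {X ι : Type} [Fintype X] [DecidableEq X] [Fintype ι] [DecidableEq ι]

/-- all polynomial relations between the entries of `Y` over `ℂ[x]` are relations between the entries of `g Y` -/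
def Preserves (F : Family X ι) (g : Matrix ι ι ℂ) : Prop :=
  ∀ p : MvPolynomial (ι × ι) (MvPolynomial X ℂ),
    (∀ x ∈ F.U, MvPolynomial.eval₂ (MvPolynomial.eval x) (fun v => F.Y x v.1 v.2) p = 0) →
    ∀ x ∈ F.U, MvPolynomial.eval₂ (MvPolynomial.eval x) (fun v => (g * F.Y x) v.1 v.2) p = 0

/-- the Galois group -/
def Family.galois (F : Family X ι) : Subgroup (GL ι ℂ) where
  carrier := {g | Preserves F (g : Matrix ι ι ℂ)}
  mul_mem' := fun ha hb => (Pool.Agent.V11273.PV.Gal F.U F.Y).mul_mem' ha hb
  one_mem' := (Pool.Agent.V11273.PV.Gal F.U F.Y).one_mem'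
  inv_mem' := fun ha => (Pool.Agent.V11273.PV.Gal F.U F.Y).inv_mem' ha

/-- subgroups of finite index which are defined by polynomial equations are the whole group -/
def Connected (G : Subgroup (GL ι ℂ)) : Prop :=
  ∀ H : Subgroup G, H.FiniteIndex → (∃ E : Set (MvPolynomial (ι × ι) ℂ), ∀ h : G, h ∈ H ↔
    ∀ e ∈ E, MvPolynomial.eval (fun v => ((h : GL ι ℂ) : Matrix ι ι ℂ) v.1 v.2) e = 0) → H = ⊤

end

/-- the field of algebraic numbers -/
abbrev Qbar : Type := algebraicClosure ℚ ℂ

/-- the value at `x` of a polynomial in the coordinates over the algebraic numbers -/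
noncomputable def atP {X : Type} (x : X → ℂ) : MvPolynomial X Qbar →+* ℂ :=
  (MvPolynomial.aeval x : MvPolynomial X Qbar →ₐ[Qbar] ℂ).toRingHom

/-- quotients of two integers of `K`, all conjugates of which are at most `T` -/
def HeightLe (K : Type) [Field K] [NumberField K] (T : ℝ) (x : K) : Prop :=
  ∃ a b : 𝓞 K, b ≠ 0 ∧ house (a : K) ≤ T ∧ house (b : K) ≤ T ∧ x = a / b

section
variable {X ι : Type} [Fintype X] [DecidableEq X] [Fintype ι] [DecidableEq ι]

/-- The ideal of `B_P`: the polynomials in the coordinates and the matrix entries, over the algebraic numbers, which vanish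
on the graph of the period matrix. -/
def InIdeal (F : Family X ι) (R : MvPolynomial (ι × ι) (MvPolynomial X Qbar)) : Prop :=
  ∀ x ∈ F.U, MvPolynomial.eval₂ (atP x) (fun v => F.Y x v.1 v.2) R = 0

/-- `P` is the specialization at `x₀` of an element of the ideal of `B_P`, of partial degrees at most `k`: a relation which
holds on the fibre `B_{P,x₀}` -/
def HoldsOnFibre (F : Family X ι) (k : ℕ) (x₀ : X → ℂ) (P : MvPolynomial (ι × ι) ℂ) : Prop :=
  ∃ R : MvPolynomial (ι × ι) (MvPolynomial X Qbar), (∀ v, R.degreeOf v ≤ k) ∧ InIdeal F R ∧ R.map (atP x₀) = P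

/-- At all points `s` with coordinates in the number field `K` (embedded into `ℂ` by `io`) of height at most `T` and with
`|s i - z i| ≤ T ^ (-w)` for all `i`, every polynomial relation `P` between the entries of `Y(s)` over the integers of `K`, of
partial degrees at most `k`, all conjugates of its coefficients being at most `T ^ k`, holds on the fibre `B_{P,s}`. -/
def GoodNear (F : Family X ι) (z : X → ℂ) (w : ℝ) (K : Type) [Field K] [NumberField K] (io : K →+* ℂ) (k : ℕ)
    (T : ℝ) : Prop :=
  ∀ s : X → K, (∀ i, HeightLe K T (s i)) → (∀ i, ‖io (s i) - z i‖ ≤ T ^ (-w)) →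
    ∀ P : MvPolynomial (ι × ι) (𝓞 K), (∀ v, P.degreeOf v ≤ k) →
      (∀ m (φ : K →+* ℂ), ‖φ ((P.coeff m : 𝓞 K) : K)‖ ≤ T ^ (k : ℝ)) →
      MvPolynomial.eval₂ (io.comp (algebraMap (𝓞 K) K)) (fun v => F.Y (fun j => io (s j)) v.1 v.2) P = 0 →
      HoldsOnFibre F k (fun j => io (s j)) (P.map (io.comp (algebraMap (𝓞 K) K)))

/-- Let `F` be a family with connected Galois group over an open part of an affine space of dimension `d ≥ 1`.
(1) There is a set `E` in `ℂ ^ d` of Hausdorff dimension at most `2 (d - 1)` such that for all `z ∈ U` outside of `E`, all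
`w > 0`, all number fields `K ⊂ ℂ` and all `k`, the property `GoodNear F z w K k T` holds for all large `T`.
(2) There is a set `E` in `ℝ ^ d` of Hausdorff dimension at most `d - 1` such that for all real `z ∈ U` outside of `E`, all
`w > 0`, all number fields `K ⊂ ℝ` and all `k`, the property `GoodNear F z w K k T` holds for all large `T`. -/
theorem result [Nonempty X] (F : Family X ι) (hF : Connected F.galois) :
    (∃ E : Set (X → ℂ), dimH E ≤ ((2 * (Fintype.card X - 1) : ℕ) : ℝ≥0∞) ∧ ∀ z ∈ F.U, z ∉ E → ∀ w : ℝ, 0 < w →
      ∀ (K : IntermediateField ℚ ℂ) [NumberField K] (k : ℕ), ∀ᶠ T : ℝ in atTop,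
        GoodNear F z w K (algebraMap K ℂ) k T) ∧
    ∃ E : Set (X → ℝ), dimH E ≤ ((Fintype.card X - 1 : ℕ) : ℝ≥0∞) ∧
      ∀ z : X → ℝ, (fun i => (z i : ℂ)) ∈ F.U → z ∉ E → ∀ w : ℝ, 0 < w →
      ∀ (K : IntermediateField ℚ ℝ) [NumberField K] (k : ℕ), ∀ᶠ T : ℝ in atTop,
        GoodNear F (fun i => (z i : ℂ)) w K (Complex.ofRealHom.comp (algebraMap K ℝ)) k T := by
  have hreg : Pool.Agent.Y890.MV.RegularM F.U (fun (v : ι × ι) x => F.Y x v.1 v.2) :=
    Pool.Agent.V11273.PV.reg F.connected F.isOpen F.analytic F.det_ne F.c_ne F.eqn hF
  obtain ⟨⟨E, hE, h⟩, ⟨E', hE', h'⟩⟩ := Pool.Agent.Helper264.NT.near_relQ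
    (f := fun (v : ι × ι) x => F.Y x v.1 v.2) F.connected F.isOpen F.nonempty (fun v => F.analytic v.1 v.2) hreg
  refine ⟨⟨E, hE, fun z hz hzE w hw K _ k => ?_⟩, ⟨E', hE', fun z hz hzE w hw K _ k => ?_⟩⟩
  · filter_upwards [h z hz hzE w hw K k] with T hT
    intro s hs hsz P h1 h2 h3
    by_contra h4
    exact hT s hs hsz ⟨P, h1, h2, h3, h4⟩
  · filter_upwards [h' z hz hzE w hw K k] with T hT
    intro s hs hsz P h1 h2 h3
    by_contra h4
    exact hT s hs hsz ⟨P, h1, h2, h3, h4⟩

end

end Pool.Agent.Results.MP_290158_ag.NearEveryPoint
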