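import Pool.Agent.Results.MP_290158_ag.CyclicCoverWindows
import Pool.Agent.V11286.NE.Vol

/-!
# Degree-bounded period relations for ALL cyclic covers of the line of a family in short windows along sequences

`C_z : y ^ N = (x - z) ^ e₀ ∏_j (x - a_j) ^ (e_j)` is the family of the starting file `CyclicCoverWindows`, with algebraic
`a_j`. That file proves the degree `δ` statement over a number field `K` at the points `s = 1 / m`, `m ∈ [N₀, N₀ + N₀ ^ c]`,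
outside a bounded number of exceptions in each such interval. Here there are no exceptions: let `v_l ≥ 1` be a sequence with
exponent of convergence at most `τ`. For all `α > 0` outside a set of Hausdorff dimension at most
`(1 - c + τ) / (1 - θ)`, `θ ≤ c`, the degree `δ` statement over `K` holds at `s = 1 / t` for ALL integers `t` with
`|t - α v_l| ≤ v_l ^ θ`, for all large `l`. If the exponent of convergence is zero (for example `v_l = 2 ^ l`), then almost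
every `α` works for all number fields `K` and all `δ` at the same time.
-/

set_option autoImplicit false

open MeasureTheory Filter

namespace Pool.Agent.Results.MP_290158_ag.SequencesWithoutExceptions

open CyclicCoverWindows

/-- The exponent of convergence of the sequence `v` is at most `τ`. -/
def ConvergenceExponentLe (v : ℕ → ℝ) (τ : ℝ) : Prop := ∀ s : ℝ, τ < s → Summable (fun l : ℕ => (v l) ^ (-s))

/-- The degree `δ` statement over `K` for the functions `P` on the disc of radius `r` holds at the points `s = 1 / t` of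
this disc for ALL the integers `t` with `|t - α v| ≤ w`. -/
def AllGood (K : Type) [Field K] [Algebra K ℂ] {ι : Type} (P : ℂ → ι → ℂ) (r : ℝ) (δ : ℕ) (α v w : ℝ) : Prop :=
  ∀ t : ℕ, |(t : ℝ) - α * v| ≤ w → 0 < t ∧ 1 / (t : ℝ) < r ∧ DegreeStatement K P r δ (1 / (t : K))

/-- (1) For every number field `K` in `ℂ` and every `δ` there are `r` with `0 < r ≤ ρ` and `c` with `0 < c < 1` such that for
every sequence `v_l ≥ 1` with exponent of convergence at most `τ`, every `θ ≤ c` and all `α > 0` outside a set of Hausdorff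
dimension at most `(1 - c + τ) / (1 - θ)`: for all large `l` the degree `δ` statement over `K` holds at `s = 1 / t` for ALL
integers `t` with `|t - α v_l| ≤ v_l ^ θ`, for all periods of the curves
`C_z : y ^ N = (x - z) ^ e₀ ∏ (x - a j) ^ (e j)`.
(2) If the exponent of convergence is zero, then almost every `α > 0` works for all number fields `K` in `ℂ` and all `δ`,
with `r` and some `θ > 0` depending on `K`, `δ`. (3) For instance `v_l = 2 ^ l`. -/
theorem result {n N e₀ σ κ : ℕ} (hN : 0 < N) (he₀ : 0 < e₀) (a : Fin n → ℂ) (ha : Function.Injective a)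
    (halg : ∀ j, IsAlgebraic ℚ (a j)) (ha0 : ∀ j, a j ≠ 0) (e : Fin n → ℕ) {ρ : ℝ} (hρ : 0 < ρ)
    (x y : Fin σ → ℝ → ℂ) (path : ∀ s, IsClosedPath N e₀ a e ρ (x s) (y s)) :
    (∀ (K : Type) [Field K] [NumberField K] [Algebra K ℂ] (δ : ℕ), ∃ r : ℝ, 0 < r ∧ r ≤ ρ ∧ ∃ c : ℝ, 0 < c ∧ c < 1 ∧
      ∀ (v : ℕ → ℝ) (τ θ : ℝ), (∀ l, 1 ≤ v l) → 0 ≤ τ → ConvergenceExponentLe v τ → θ ≤ c →
        ∃ Y : Set ℝ, dimH Y ≤ ENNReal.ofReal ((1 - c + τ) / (1 - θ)) ∧ ∀ α : ℝ, 0 < α → α ∉ Y →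
          ∃ l₀ : ℕ, ∀ l : ℕ, l₀ ≤ l →
            AllGood K (periods (n := n) (κ := κ) N e₀ x y) r δ α (v l) ((v l) ^ θ)) ∧
    (∀ v : ℕ → ℝ, (∀ l, 1 ≤ v l) → ConvergenceExponentLe v 0 → ∀ᵐ α : ℝ, 0 < α →
      ∀ K : IntermediateField ℚ ℂ, FiniteDimensional ℚ K → ∀ δ : ℕ, ∃ r θ : ℝ, 0 < r ∧ r ≤ ρ ∧ 0 < θ ∧
        ∃ l₀ : ℕ, ∀ l : ℕ, l₀ ≤ l →
          AllGood K (periods (n := n) (κ := κ) N e₀ x y) r δ α (v l) ((v l) ^ θ)) ∧
    (∀ᵐ α : ℝ, 0 < α →
      ∀ K : IntermediateField ℚ ℂ, FiniteDimensional ℚ K → ∀ δ : ℕ, ∃ r θ : ℝ, 0 < r ∧ r ≤ ρ ∧ 0 < θ ∧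
        ∃ l₀ : ℕ, ∀ l : ℕ, l₀ ≤ l →
          AllGood K (periods (n := n) (κ := κ) N e₀ x y) r δ α (2 ^ l) ((2 : ℝ) ^ (θ * l))) := by
  have h1 : ∀ (K : Type) [Field K] [NumberField K] [Algebra K ℂ] (δ : ℕ), ∃ r : ℝ, 0 < r ∧ r ≤ ρ ∧ ∃ c : ℝ, 0 < c ∧ c < 1 ∧
      ∀ (v : ℕ → ℝ) (τ θ : ℝ), (∀ l, 1 ≤ v l) → 0 ≤ τ → ConvergenceExponentLe v τ → θ ≤ c →
        ∃ Y : Set ℝ, dimH Y ≤ ENNReal.ofReal ((1 - c + τ) / (1 - θ)) ∧ ∀ α : ℝ, 0 < α → α ∉ Y →
          ∃ l₀ : ℕ, ∀ l : ℕ, l₀ ≤ l →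
            AllGood K (periods (n := n) (κ := κ) N e₀ x y) r δ α (v l) ((v l) ^ θ) := by
    intro K _ _ _ δ
    obtain ⟨r, hr, hrρ, c', hc', M, h⟩ := CyclicCoverWindows.result (κ := κ) hN he₀ a ha halg ha0 e hρ x y path K δ
    set c : ℝ := min c' 1 with hc
    have hc0 : 0 < c := lt_min hc' one_pos
    have hc1 : c ≤ 1 := min_le_right _ _
    refine ⟨r, hr, hrρ, c / 2, by positivity, by linarith, fun v τ θ hv hτ hvτ hθ => ?_⟩
    choose! S hS using h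
    obtain ⟨Y, hY, hY2⟩ := Pool.Agent.V11286.NE.no_exc M (c := c) (b := c / 2) (by positivity)
      (by linarith) hc1 (fun q => if 1 ≤ q then S q else ∅) (fun q => by
        by_cases hq : 1 ≤ q
        · simp only [hq, if_true]
          exact (hS q hq).1
        · simp [hq]) hv hτ hvτ hθ
    refine ⟨Y, hY, fun α hα hαY => ?_⟩
    obtain ⟨l₀, hl₀⟩ := hY2 α hα hαY 1
    refine ⟨l₀, fun l hl t ht => ?_⟩
    obtain ⟨q, hq, hqt⟩ := hl₀ l hl
    obtain ⟨a1, a2, a3⟩ := hqt t ht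
    rw [if_pos hq] at a3
    have hq1 : (1 : ℝ) ≤ q := by exact_mod_cast hq
    have a4 : (t : ℝ) ≤ q + (q : ℝ) ^ c' := by
      have : (q : ℝ) ^ c ≤ (q : ℝ) ^ c' := Real.rpow_le_rpow_of_exponent_le hq1 (min_le_left _ _)
      linarith
    obtain ⟨a5, a6⟩ := (hS q hq).2 t a1 a4 a3
    exact ⟨by omega, a5, a6⟩
  have h2 : ∀ v : ℕ → ℝ, (∀ l, 1 ≤ v l) → ConvergenceExponentLe v 0 → ∀ᵐ α : ℝ, 0 < α →
      ∀ K : IntermediateField ℚ ℂ, FiniteDimensional ℚ K → ∀ δ : ℕ, ∃ r θ : ℝ, 0 < r ∧ r ≤ ρ ∧ 0 < θ ∧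
        ∃ l₀ : ℕ, ∀ l : ℕ, l₀ ≤ l →
          AllGood K (periods (n := n) (κ := κ) N e₀ x y) r δ α (v l) ((v l) ^ θ) := by
    intro v hv hv0
    have hcount := Pool.Agent.V11286.NE.countable_fields
    have : Countable {K : IntermediateField ℚ ℂ | FiniteDimensional ℚ K} := hcount.to_subtype
    have h5 : ∀ᵐ α : ℝ, ∀ (K : {K : IntermediateField ℚ ℂ | FiniteDimensional ℚ K}) (δ : ℕ), 0 < α →
        ∃ r θ : ℝ, 0 < r ∧ r ≤ ρ ∧ 0 < θ ∧ ∃ l₀ : ℕ, ∀ l : ℕ, l₀ ≤ l →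
          AllGood (K : IntermediateField ℚ ℂ) (periods (n := n) (κ := κ) N e₀ x y) r δ α (v l) ((v l) ^ θ) := by
      rw [ae_all_iff]
      rintro ⟨K, hK⟩
      rw [ae_all_iff]
      intro δ
      have hK' : FiniteDimensional ℚ K := hK
      have hKn : NumberField K := { to_charZero := inferInstance, to_finiteDimensional := hK' }
      obtain ⟨r, hr, hrρ, c, hc0, hc1, h4⟩ := h1 K δ
      obtain ⟨Y, hY, hY2⟩ := h4 v 0 (c / 2) hv le_rfl hv0 (by linarith)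
      have hY0 : volume Y = 0 := Pool.Agent.V11286.NE.vol_zero (Pool.Agent.V11286.NE.ratio_lt hc0 hc1) hY
      have hae : ∀ᵐ α : ℝ, α ∉ Y := measure_eq_zero_iff_ae_notMem.1 hY0
      filter_upwards [hae] with α hα hα0
      exact ⟨r, c / 2, hr, hrρ, by positivity, hY2 α hα0 hα⟩
    filter_upwards [h5] with α h6 hα K hK δ
    exact h6 ⟨K, hK⟩ δ hα
  refine ⟨h1, h2, ?_⟩
  have h3 := h2 (fun l => (2 : ℝ) ^ l) (fun l => one_le_pow₀ (by norm_num)) Pool.Agent.V11286.NE.expLe_two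
  filter_upwards [h3] with α h4 hα K hK δ
  obtain ⟨r, θ, hr, hrρ, hθ, l₀, h5⟩ := h4 hα K hK δ
  refine ⟨r, θ, hr, hrρ, hθ, l₀, fun l hl t ht => h5 l hl t (ht.trans (le_of_eq ?_))⟩
  show (2 : ℝ) ^ (θ * l) = ((2 : ℝ) ^ l) ^ θ
  rw [← Real.rpow_natCast, ← Real.rpow_mul (by norm_num), mul_comm]

end Pool.Agent.Results.MP_290158_ag.SequencesWithoutExceptions
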